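import Mathlib

/-!
# Varieties with a group action over an algebraically closed field

Definitions used in the statement of the answer to MP_4a1002_ag.  Schemes over `K` are objects of
`Over (Spec (CommRingCat.of K))`; a group scheme over `K` is such an object with Mathlib's `GrpObj`,
and an algebraic action `G × X ⟶ X` over `K` is Mathlib's `ModObj G X`.
-/

open CategoryTheory AlgebraicGeometry MonoidalCategory MonObj

universe u

namespace Pool.Agent.Lib.MP_4a1002_ag

/-- `X(K)`: the `K`-points of a scheme `X` over `K`, i.e. the morphisms `Spec K ⟶ X` over `Spec K`.
For a group scheme `G` over `K` the set `G(K)` is a group (Mathlib's `Hom.group`), and if `G` acts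
on `X` (Mathlib's `ModObj G X`) then `G(K)` acts on `X(K)` (Mathlib's `Hom.mulAction`). -/
abbrev KPoints {K : Type u} [Field K] (X : Over (Spec (CommRingCat.of K))) : Type u :=
  𝟙_ (Over (Spec (CommRingCat.of K))) ⟶ X

/-- The point of the topological space underlying `X` at which a `K`-point of `X` sits. -/
noncomputable def KPoints.pt {K : Type u} [Field K] {X : Over (Spec (CommRingCat.of K))}
    (x : KPoints X) : X.left :=
  x.left (IsLocalRing.closedPoint K)

/-- A set of `K`-points of `X` is Zariski open if it is the set of all `K`-points that lie in some
open subset of the scheme `X`. -/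
def IsZariskiOpen {K : Type u} [Field K] {X : Over (Spec (CommRingCat.of K))}
    (S : Set (KPoints X)) : Prop :=
  ∃ U : X.left.Opens, S = {x | x.pt ∈ U}

/-- An (irreducible) algebraic variety over `K`: an integral separated scheme of finite type. -/
structure IsVariety {K : Type u} [Field K] (X : Over (Spec (CommRingCat.of K))) : Prop where
  isIntegral : IsIntegral X.left
  isSeparated : IsSeparated X.hom
  locallyOfFiniteType : LocallyOfFiniteType X.hom
  quasiCompact : QuasiCompact X.hom

/-- A connected linear algebraic group over `K`: a group scheme over `K` that is affine, reduced,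
of finite type and connected. -/
structure IsConnectedLinearAlgebraicGroup {K : Type u} [Field K]
    (G : Over (Spec (CommRingCat.of K))) [GrpObj G] : Prop where
  isAffine : IsAffine G.left
  isReduced : IsReduced G.left
  locallyOfFiniteType : LocallyOfFiniteType G.hom
  quasiCompact : QuasiCompact G.hom
  connectedSpace : ConnectedSpace G.left

/-- An element `g` of `G(K)` is unipotent if right translation by `g` acts locally unipotently on
the algebra of regular functions of `G`: writing `ρ` for the pull-back of functions along
`x ↦ x * g`, every regular function is killed by some power of `ρ - 1`. -/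
def IsUnipotentElement {K : Type u} [Field K] {G : Over (Spec (CommRingCat.of K))} [GrpObj G]
    (g : KPoints G) : Prop :=
  ∀ f : Γ(G.left, ⊤), ∃ n : ℕ,
    (fun a : Γ(G.left, ⊤) => (GrpObj.mulRight g).hom.left.appTop a - a)^[n] f = 0

end Pool.Agent.Lib.MP_4a1002_ag
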