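import Mathlib

/-!
The free two-step nilpotent group of rank three over a commutative ring, in the coordinates
`(v, w)` with `(v, w) * (v', w') = (v + v', w + w' + v × v')`.
-/

namespace Pool.Agent.Lib.MP_4a1002_ag

universe u

open Matrix

/-- Pairs `(v, w)` of vectors in `R ^ 3`. -/
@[ext] structure Heis (R : Type u) where
  /-- the first vector -/
  v : Fin 3 → R
  /-- the second vector -/
  w : Fin 3 → R

namespace Heis

variable {R : Type u} [CommRing R]

instance : Mul (Heis R) := ⟨fun a b => ⟨a.v + b.v, a.w + b.w + crossProduct a.v b.v⟩⟩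
instance : One (Heis R) := ⟨⟨0, 0⟩⟩
instance : Inv (Heis R) := ⟨fun a => ⟨-a.v, -a.w⟩⟩

@[simp] lemma mul_v (a b : Heis R) : (a * b).v = a.v + b.v := rfl
@[simp] lemma mul_w (a b : Heis R) : (a * b).w = a.w + b.w + crossProduct a.v b.v := rfl
@[simp] lemma one_v : (1 : Heis R).v = 0 := rfl
@[simp] lemma one_w : (1 : Heis R).w = 0 := rfl
@[simp] lemma inv_v (a : Heis R) : (a⁻¹).v = -a.v := rfl
@[simp] lemma inv_w (a : Heis R) : (a⁻¹).w = -a.w := rfl

instance : Group (Heis R) where
  mul_assoc a b c := by
    ext1
    · simp [add_assoc]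
    · simp only [mul_w, mul_v, map_add, LinearMap.add_apply]
      abel
  one_mul a := by ext1 <;> simp
  mul_one a := by ext1 <;> simp
  inv_mul_cancel a := by ext1 <;> simp

/-- Base change of `Heis` along a ring homomorphism. -/
def map {S : Type u} [CommRing S] (f : R →+* S) : Heis R →* Heis S where
  toFun a := ⟨fun i => f (a.v i), fun i => f (a.w i)⟩
  map_one' := by ext <;> simp
  map_mul' a b := by
    ext i
    · simp
    · fin_cases i <;> simp [cross_apply]

@[simp] lemma map_v {S : Type u} [CommRing S] (f : R →+* S) (a : Heis R) (i : Fin 3) :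
    (map f a).v i = f (a.v i) := rfl
@[simp] lemma map_w {S : Type u} [CommRing S] (f : R →+* S) (a : Heis R) (i : Fin 3) :
    (map f a).w i = f (a.w i) := rfl

lemma comm_iff [Invertible (2 : R)] (a b : Heis R) :
    a * b = b * a ↔ crossProduct a.v b.v = 0 := by
  constructor
  · intro h
    have h1 : (a * b).w = (b * a).w := by rw [h]
    simp only [mul_w] at h1
    have h2 : crossProduct b.v a.v = - crossProduct a.v b.v := by
      rw [cross_anticomm]
    rw [h2] at h1
    have h3 : (2 : R) • crossProduct a.v b.v = 0 := by
      have : crossProduct a.v b.v = - crossProduct a.v b.v := by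
        have h4 : a.w + b.w + crossProduct a.v b.v = a.w + b.w + - crossProduct a.v b.v := by
          rw [h1]; abel
        exact add_left_cancel h4
      rw [two_smul]
      nth_rewrite 2 [this]
      simp
    have h5 := congrArg (fun x => (⅟(2 : R)) • x) h3
    simpa [smul_smul] using h5
  · intro h
    have h2 : crossProduct b.v a.v = 0 := by
      rw [← neg_eq_zero, cross_anticomm, h]
    ext1
    · simp [add_comm]
    · simp [h, h2, add_comm]

end Heis

end Pool.Agent.Lib.MP_4a1002_ag
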