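import Mathlib
import Pool.Agent.Lib.MP_4a1002_ag.Heis
import Pool.Agent.Lib.MP_4a1002_ag.Defs

/-!
The group scheme `𝔸⁶` over a field `K` with the group law of `Heis`.
-/

open CategoryTheory AlgebraicGeometry MonoidalCategory CartesianMonoidalCategory MonObj
open Matrix

universe u

namespace Pool.Agent.Lib.MP_4a1002_ag

section

variable (K : Type u) [Field K]

/-- The functor sending a scheme `T` over `K` to the group `Heis Γ(T, ⊤)`. -/
noncomputable def heisFunctor : (Over (Spec (CommRingCat.of K)))ᵒᵖ ⥤ GrpCat.{u} where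
  obj T := GrpCat.of (Heis Γ(T.unop.left, ⊤))
  map f := GrpCat.ofHom (Heis.map f.unop.left.appTop.hom)
  map_id T := by
    ext a <;> rfl
  map_comp f g := by
    ext a <;> simp

/-- index type of the six coordinates -/
abbrev Idx : Type u := ULift.{u} (Fin 3 ⊕ Fin 3)

/-- The scheme `𝔸⁶` over `K`. -/
noncomputable abbrev A6 : Over (Spec (CommRingCat.of K)) :=
  Over.mk (AffineSpace Idx.{u} (Spec (CommRingCat.of K)) ↘ (Spec (CommRingCat.of K)))

/-- Morphisms to `𝔸⁶` are six-tuples of functions. -/
noncomputable def homEquivHeis (T : Over (Spec (CommRingCat.of K))) :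
    (T ⟶ A6 K) ≃ Heis Γ(T.left, ⊤) where
  toFun f := ⟨fun i => f.left.appTop (AffineSpace.coord _ ⟨Sum.inl i⟩),
    fun i => f.left.appTop (AffineSpace.coord _ ⟨Sum.inr i⟩)⟩
  invFun a := Over.homMk (AffineSpace.homOfVector T.hom (fun j => Sum.elim a.v a.w j.down))
    (by simp)
  left_inv f := by
    apply Over.OverMorphism.ext
    apply AffineSpace.hom_ext
    · have := Over.w f
      simp at this
      simp [this]
    · rintro ⟨i | i⟩ <;> simp
  right_inv a := by
    ext i <;> simp

/-- `𝔸⁶` represents `heisFunctor`. -/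
noncomputable def heisRep : (heisFunctor K ⋙ forget _).RepresentableBy (A6 K) where
  homEquiv {T} := homEquivHeis K T
  homEquiv_comp f g := by
    apply Heis.ext <;> funext i <;> simp [homEquivHeis] <;> rfl

noncomputable instance : GrpObj (A6 K) := GrpObj.ofRepresentableBy _ _ (heisRep K)

/-- The group of `T`-points of the group scheme is `Heis Γ(T, ⊤)`. -/
noncomputable def pointsEquiv (T : Over (Spec (CommRingCat.of K))) :
    (T ⟶ A6 K) ≃* Heis Γ(T.left, ⊤) :=
  ((yonedaGrpObjIsoOfRepresentableBy (A6 K) (heisFunctor K) (heisRep K)).app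
    (Opposite.op T)).groupIsoToMulEquiv

lemma pointsEquiv_v (T : Over (Spec (CommRingCat.of K))) (f : T ⟶ A6 K) (i : Fin 3) :
  (pointsEquiv K T f).v i = f.left.appTop (AffineSpace.coord _ ⟨Sum.inl i⟩) := rfl

lemma pointsEquiv_w (T : Over (Spec (CommRingCat.of K))) (f : T ⟶ A6 K) (i : Fin 3) :
  (pointsEquiv K T f).w i = f.left.appTop (AffineSpace.coord _ ⟨Sum.inr i⟩) := rfl

end

section LocNil

/-- The additive endomorphism `φ - 1`. -/
def delta {A : Type u} [CommRing A] (φ : A →+* A) : AddMonoid.End A :=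
  (φ.toAddMonoidHom - AddMonoidHom.id A : A →+ A)

lemma delta_apply {A : Type u} [CommRing A] (φ : A →+* A) (a : A) : delta φ a = φ a - a := rfl

lemma delta_pow_succ {A : Type u} [CommRing A] (φ : A →+* A) (n : ℕ) (a : A) :
    (delta φ ^ (n + 1)) a = (delta φ ^ n) (delta φ a) := by
  rw [pow_succ]; rfl

lemma delta_pow_succ' {A : Type u} [CommRing A] (φ : A →+* A) (n : ℕ) (a : A) :
    (delta φ ^ (n + 1)) a = delta φ ((delta φ ^ n) a) := by
  rw [pow_succ']; rfl

lemma delta_pow_comm {A : Type u} [CommRing A] (φ : A →+* A) (n : ℕ) (a : A) :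
    (delta φ ^ n) (φ a) = φ ((delta φ ^ n) a) := by
  induction n generalizing a with
  | zero => rfl
  | succ n ih =>
    rw [delta_pow_succ', delta_pow_succ', ih, delta_apply, delta_apply, map_sub]

lemma delta_pow_mono {A : Type u} [CommRing A] (φ : A →+* A) {m n : ℕ} (h : m ≤ n) (a : A)
    (ha : (delta φ ^ m) a = 0) : (delta φ ^ n) a = 0 := by
  obtain ⟨k, rfl⟩ := Nat.exists_eq_add_of_le h
  induction k with
  | zero => exact ha
  | succ k ih =>
    rw [← add_assoc, delta_pow_succ', ih (by omega), map_zero]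

lemma delta_mul {A : Type u} [CommRing A] (φ : A →+* A) (a b : A) :
    delta φ (a * b) = delta φ a * φ b + a * delta φ b := by
  simp only [delta_apply, map_mul]; ring

lemma delta_pow_mul {A : Type u} [CommRing A] (φ : A →+* A) (n : ℕ) : ∀ (p q : ℕ), p + q ≤ n →
    ∀ a b : A, (delta φ ^ p) a = 0 → (delta φ ^ q) b = 0 → (delta φ ^ n) (a * b) = 0 := by
  induction n with
  | zero =>
    intro p q hpq a b ha hb
    obtain rfl : p = 0 := by omega
    have : a = 0 := ha
    simp [this]
  | succ n ih =>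
    intro p q hpq a b ha hb
    rcases p with _ | p
    · have : a = 0 := ha
      simp [this]
    rcases q with _ | q
    · have : b = 0 := hb
      simp [this]
    rw [delta_pow_succ, delta_mul, map_add]
    rw [ih p (q + 1) (by omega) (delta φ a) (φ b) (by rw [← delta_pow_succ]; exact ha)
      (by rw [delta_pow_comm, hb, map_zero])]
    rw [ih (p + 1) q (by omega) a (delta φ b) ha (by rw [← delta_pow_succ]; exact hb)]
    simp

/-- The subring on which `φ - 1` is locally nilpotent. -/
def locNil {A : Type u} [CommRing A] (φ : A →+* A) : Subring A where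
  carrier := {a | ∃ n : ℕ, (delta φ ^ n) a = 0}
  zero_mem' := ⟨0, by simp⟩
  one_mem' := ⟨1, by simp [delta_apply]⟩
  add_mem' := by
    rintro a b ⟨m, hm⟩ ⟨n, hn⟩
    exact ⟨max m n, by
      rw [map_add, delta_pow_mono φ (le_max_left m n) a hm, delta_pow_mono φ (le_max_right m n) b hn,
        add_zero]⟩
  neg_mem' := by
    rintro a ⟨m, hm⟩
    exact ⟨m, by rw [map_neg, hm, neg_zero]⟩
  mul_mem' := by
    rintro a b ⟨m, hm⟩ ⟨n, hn⟩
    exact ⟨m + n, delta_pow_mul φ (m + n) m n le_rfl a b hm hn⟩

lemma mem_locNil_of_delta {A : Type u} [CommRing A] (φ : A →+* A) (a : A)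
    (h : delta φ a ∈ locNil φ) : a ∈ locNil φ := by
  obtain ⟨n, hn⟩ := h
  exact ⟨n + 1, by rw [delta_pow_succ]; exact hn⟩

end LocNil

section

variable (K : Type u) [Field K]

instance isIntegral_A6 : IsIntegral (A6 K).left := by
  change IsIntegral (AffineSpace Idx.{u} (Spec (CommRingCat.of K)))
  have : IsDomain (MvPolynomial Idx.{u} K) := inferInstance
  have : IsIntegral (Spec (CommRingCat.of (MvPolynomial Idx.{u} K))) := inferInstance
  exact isIntegral_of_isOpenImmersion (AffineSpace.SpecIso Idx.{u} (CommRingCat.of K)).hom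

instance isAffine_A6 : IsAffine (A6 K).left := by
  change IsAffine (AffineSpace Idx.{u} (Spec (CommRingCat.of K)))
  infer_instance

instance locallyOfFiniteType_A6 : LocallyOfFiniteType (A6 K).hom := by
  change LocallyOfFiniteType (AffineSpace Idx.{u} (Spec (CommRingCat.of K)) ↘ _)
  infer_instance

instance quasiCompact_A6 : QuasiCompact (A6 K).hom := by
  change QuasiCompact (AffineSpace Idx.{u} (Spec (CommRingCat.of K)) ↘ _)
  infer_instance

lemma isConnectedLinearAlgebraicGroup_A6 : IsConnectedLinearAlgebraicGroup (A6 K) where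
  isAffine := inferInstance
  isReduced := inferInstance
  locallyOfFiniteType := inferInstance
  quasiCompact := inferInstance
  connectedSpace := inferInstance

/-- Functions on `𝔸⁶` are polynomials in the coordinates. -/
lemma functions_induction (S : Subring Γ((A6 K).left, ⊤))
    (h0 : ∀ c : Γ(Spec (CommRingCat.of K), ⊤), (A6 K).hom.appTop c ∈ S)
    (h1 : ∀ i, AffineSpace.coord (Spec (CommRingCat.of K)) i ∈ S) (f : Γ((A6 K).left, ⊤)) :
    f ∈ S := by
  have hbij : Function.Bijective
      (AffineSpace.isoOfIsAffine Idx.{u} (Spec (CommRingCat.of K))).hom.appTop := by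
    rw [← ConcreteCategory.isIso_iff_bijective]
    exact inferInstanceAs
      (IsIso ((AffineSpace.isoOfIsAffine Idx.{u} (Spec (CommRingCat.of K))).hom.app ⊤))
  obtain ⟨p, hp⟩ := hbij.2 f
  rw [AffineSpace.isoOfIsAffine_hom_appTop] at hp
  subst hp
  rw [CommRingCat.comp_apply]
  generalize (Scheme.ΓSpecIso _).hom p = q
  rw [ConcreteCategory.hom_ofHom]
  induction q using MvPolynomial.induction_on with
  | C a =>
    rw [MvPolynomial.eval₂Hom_C]
    exact h0 a
  | add p q hp hq =>
    rw [map_add]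
    exact S.add_mem hp hq
  | mul_X p i hp =>
    rw [map_mul, MvPolynomial.eval₂Hom_X']
    exact S.mul_mem hp (h1 i)

/-- Right translation by `g` in coordinates. -/
lemma pointsEquiv_mulRight (g : KPoints (A6 K)) :
    pointsEquiv K _ (GrpObj.mulRight g).hom =
      pointsEquiv K _ (𝟙 (A6 K)) * Heis.map (A6 K).hom.appTop.hom (pointsEquiv K _ g) := by
  have : (GrpObj.mulRight g).hom = 𝟙 (A6 K) * (toUnit _ ≫ g) := by
    rw [Hom.mul_def]; rfl
  rw [this, map_mul]
  congr 1

/-- Every element of the group is unipotent. -/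
lemma isUnipotentElement_A6 (g : KPoints (A6 K)) : IsUnipotentElement g := by
  intro f
  set φ : Γ((A6 K).left, ⊤) →+* Γ((A6 K).left, ⊤) := (GrpObj.mulRight g).hom.left.appTop.hom with hφ
  have hc : ∀ c : Γ(Spec (CommRingCat.of K), ⊤), φ ((A6 K).hom.appTop c) = (A6 K).hom.appTop c := by
    intro c
    have := Over.w (GrpObj.mulRight g).hom
    have h2 := congrArg (fun h => h.appTop c) this
    rw [Scheme.Hom.comp_appTop, CommRingCat.comp_apply] at h2
    exact h2
  have hc' : ∀ c : Γ(Spec (CommRingCat.of K), ⊤), (A6 K).hom.appTop c ∈ locNil φ := by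
    intro c
    apply mem_locNil_of_delta
    rw [delta_apply, hc, sub_self]
    exact zero_mem _
  have hid : ∀ c : Γ((A6 K).left, ⊤), (𝟙 (A6 K) : A6 K ⟶ A6 K).left.appTop c = c := by
    intro c
    rw [Over.id_left]
    rfl
  have hv : ∀ i, AffineSpace.coord (Spec (CommRingCat.of K)) ⟨Sum.inl i⟩ ∈ locNil φ := by
    intro i
    apply mem_locNil_of_delta
    have h1 := congrArg (fun h => h.v i) (pointsEquiv_mulRight K g)
    simp only [Heis.mul_v, Pi.add_apply, pointsEquiv_v, Heis.map_v] at h1
    rw [hid] at h1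
    rw [delta_apply]
    change φ _ = _ at h1
    rw [h1, add_sub_cancel_left]
    exact hc' _
  have hw : ∀ i, AffineSpace.coord (Spec (CommRingCat.of K)) ⟨Sum.inr i⟩ ∈ locNil φ := by
    intro i
    apply mem_locNil_of_delta
    have h1 := congrArg (fun h => h.w i) (pointsEquiv_mulRight K g)
    simp only [Heis.mul_w, Pi.add_apply, pointsEquiv_w, Heis.map_w] at h1
    rw [hid] at h1
    rw [delta_apply]
    change φ _ = _ at h1
    rw [h1, add_assoc, add_sub_cancel_left]
    refine (locNil φ).add_mem (hc' _) ?_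
    have hv2 : ∀ j, (pointsEquiv K (A6 K) (𝟙 (A6 K))).v j ∈ locNil φ := by
      intro j
      rw [pointsEquiv_v, hid]
      exact hv j
    have hv3 : ∀ j, (Heis.map (A6 K).hom.appTop.hom (pointsEquiv K _ g)).v j ∈ locNil φ := by
      intro j
      rw [Heis.map_v]
      exact hc' _
    rw [cross_apply]
    fin_cases i
    · exact (locNil φ).sub_mem ((locNil φ).mul_mem (hv2 1) (hv3 2))
        ((locNil φ).mul_mem (hv2 2) (hv3 1))
    · exact (locNil φ).sub_mem ((locNil φ).mul_mem (hv2 2) (hv3 0))
        ((locNil φ).mul_mem (hv2 0) (hv3 2))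
    · exact (locNil φ).sub_mem ((locNil φ).mul_mem (hv2 0) (hv3 1))
        ((locNil φ).mul_mem (hv2 1) (hv3 0))
  obtain ⟨n, hn⟩ := functions_induction K (locNil φ) hc' (by
    rintro ⟨i | i⟩
    · exact hv i
    · exact hw i) f
  refine ⟨n, ?_⟩
  rw [AddMonoid.End.coe_pow] at hn
  exact hn

end

end Pool.Agent.Lib.MP_4a1002_ag
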