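import Mathlib
import Pool.Agent.Lib.MP_4a1002_ag.Defs

/-!
Open orbits of subgroups on varieties over an algebraically closed field.
-/

open CategoryTheory AlgebraicGeometry MonoidalCategory CartesianMonoidalCategory MonObj

universe u

namespace Pool.Agent.Lib.MP_4a1002_ag

variable {K : Type u} [Field K]

/-- The automorphism of `X` given by a `K`-point of `G`. -/
noncomputable def act {G X : Over (Spec (CommRingCat.of K))} [GrpObj G] [ModObj G X]
    (g : KPoints G) : X ⟶ X := (toUnit X ≫ g) • (𝟙 X)

lemma comp_act {G X : Over (Spec (CommRingCat.of K))} [GrpObj G] [ModObj G X] (g : KPoints G)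
    (x : KPoints X) : x ≫ act g = g • x := by
  rw [act, ModObj.comp_smul]
  simp

lemma smul_pt {G X : Over (Spec (CommRingCat.of K))} [GrpObj G] [ModObj G X] (g : KPoints G)
    (x : KPoints X) : (g • x).pt = (act g).left x.pt := by
  rw [← comp_act, KPoints.pt, KPoints.pt]
  simp

variable [IsAlgClosed K]

lemma exists_point {X : Over (Spec (CommRingCat.of K))} (hX : IsVariety X) (U : X.left.Opens)
    (hU : (U : Set X.left).Nonempty) : ∃ y : KPoints X, y.pt ∈ U := by
  have := hX.locallyOfFiniteType
  have : JacobsonSpace X.left := LocallyOfFiniteType.jacobsonSpace X.hom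
  obtain ⟨p, hpU, hp⟩ := nonempty_inter_closedPoints hU U.isOpen.isLocallyClosed
  refine ⟨Over.homMk (pointOfClosedPoint X.hom p hp) (by simp), ?_⟩
  simpa [KPoints.pt] using hpU

/-- If the orbit `H x` is open in a variety, every `g` moves some point of `H x` into `H x`. -/
lemma exists_mem_orbit {G X : Over (Spec (CommRingCat.of K))} [GrpObj G] [ModObj G X]
    (hX : IsVariety X) (H : Subgroup (KPoints G)) (x : KPoints X)
    (hx : IsZariskiOpen (MulAction.orbit H x)) (g : KPoints G) :
    ∃ h₁ ∈ H, ∃ h₂ ∈ H, g • h₁ • x = h₂ • x := by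
  obtain ⟨U, hU⟩ := hx
  have := hX.isIntegral
  have hxU : x.pt ∈ U := by
    have : x ∈ MulAction.orbit H x := MulAction.mem_orbit_self x
    rw [hU] at this
    exact this
  have hne1 : (U : Set X.left).Nonempty := ⟨_, hxU⟩
  let V : X.left.Opens := (act g).left ⁻¹ᵁ U
  have hne2 : (V : Set X.left).Nonempty := by
    refine ⟨(g⁻¹ • x).pt, ?_⟩
    change (act g).left (g⁻¹ • x).pt ∈ U
    rw [← smul_pt]
    simpa using hxU
  have hne : ((U ⊓ V : X.left.Opens) : Set X.left).Nonempty :=
    nonempty_preirreducible_inter U.isOpen V.isOpen hne1 hne2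
  obtain ⟨y, hyU, hyV⟩ := exists_point hX (U ⊓ V) hne
  have h1 : y ∈ MulAction.orbit H x := by
    rw [hU]; exact hyU
  have h2 : g • y ∈ MulAction.orbit H x := by
    rw [hU]
    change (g • y).pt ∈ U
    rw [smul_pt]
    exact hyV
  obtain ⟨⟨a, ha⟩, rfl⟩ := h1
  obtain ⟨⟨b, hb⟩, hb'⟩ := h2
  exact ⟨a, ha, b, hb, hb'.symm⟩

/-- If the orbit `H x` is open in a variety, an element commuting with `H` and fixing `x` acts
trivially. -/
lemma act_trivial {G X : Over (Spec (CommRingCat.of K))} [GrpObj G] [ModObj G X]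
    (hX : IsVariety X) (H : Subgroup (KPoints G)) (x : KPoints X)
    (hx : IsZariskiOpen (MulAction.orbit H x)) (k : KPoints G) (hk : ∀ h ∈ H, k * h = h * k)
    (hkx : k • x = x) (y : KPoints X) : k • y = y := by
  obtain ⟨U, hU⟩ := hx
  have := hX.isIntegral
  have := hX.isSeparated
  have := hX.locallyOfFiniteType
  have hxU : x.pt ∈ U := by
    have : x ∈ MulAction.orbit H x := MulAction.mem_orbit_self x
    rw [hU] at this
    exact this
  have hw : (act k : X ⟶ X).left ≫ X.hom = X.hom := Over.w (act k : X ⟶ X)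
  have : LocallyOfFiniteType ((act k : X ⟶ X).left ≫ X.hom) := by
    rw [hw]; infer_instance
  have key : (act k : X ⟶ X).left = 𝟙 X.left := by
    refine ext_of_apply_eq X.hom (U : Set X.left) U.isOpen.isLocallyClosed
      (U.isOpen.dense ⟨_, hxU⟩) ?_ ?_
    · intro p hp hpc
      let z : KPoints X := Over.homMk (pointOfClosedPoint X.hom p hpc) (by simp)
      have hz : z.pt = p := by simp [z, KPoints.pt]
      have hz' : z ∈ MulAction.orbit H x := by
        rw [hU]
        change z.pt ∈ U
        rw [hz]
        exact hp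
      obtain ⟨⟨a, ha⟩, haz⟩ := hz'
      have : k • z = z := by
        rw [← haz]
        change k • a • x = a • x
        rw [← mul_smul, hk a ha, mul_smul, hkx]
      rw [← hz, ← smul_pt, this]
      simp
    · rw [hw]; simp
  have key2 : (act k : X ⟶ X) = 𝟙 X := by
    apply Over.OverMorphism.ext
    simpa using key
  rw [← comp_act, key2, Category.comp_id]

end Pool.Agent.Lib.MP_4a1002_ag
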